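import Mathlib
import Pool.Agent.H48.BAlg

set_option autoImplicit false

namespace Pool.Agent.Results.MP_68720f_al.NotAdmissible

/-- The underlying space of `A_{k+1}`: `A_1 = R ⊕ R u` and `A_{k+2} = A_{k+1} ⊕ A_{k+1} v`. -/
def CD (R : Type) : ℕ → Type
  | 0 => R × R
  | k + 1 => CD R k × CD R k

section Basic

variable {R : Type} [CommRing R]

instance addCommGroup : (k : ℕ) → AddCommGroup (CD R k)
  | 0 => (inferInstance : AddCommGroup (R × R))
  | k + 1 => letI := addCommGroup k; (inferInstance : AddCommGroup (CD R k × CD R k))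

instance module : (k : ℕ) → Module R (CD R k)
  | 0 => (inferInstance : Module R (R × R))
  | k + 1 => letI := module k; (inferInstance : Module R (CD R k × CD R k))

/-- The involution: `conj (a + b u) = (a + b) - b u` and `conj (a + b v) = conj a - b v`. -/
def conj : (k : ℕ) → CD R k → CD R k
  | 0, x => (x.1 + x.2, -x.2)
  | k + 1, x => (conj k x.1, -x.2)

/-- The product: `u² = u + α` in `A_1`, and
`(a + b v)(c + d v) = (a c + γ_{k+2} (conj d) b) + (d a + b (conj c)) v` in `A_{k+2}`. -/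
def mul (α : R) (γ : ℕ → R) : (k : ℕ) → CD R k → CD R k → CD R k
  | 0, x, y => (x.1 * y.1 + α * (x.2 * y.2), x.1 * y.2 + x.2 * y.1 + x.2 * y.2)
  | k + 1, x, y => (mul α γ k x.1 y.1 + γ (k + 2) • mul α γ k (conj k y.2) x.2,
      mul α γ k y.2 x.1 + mul α γ k x.2 (conj k y.1))

omit [CommRing R] in
theorem ext0 {x y : CD R 0} (h1 : x.1 = y.1) (h2 : x.2 = y.2) : x = y := Prod.ext h1 h2
omit [CommRing R] in
theorem extS {k : ℕ} {x y : CD R (k + 1)} (h1 : x.1 = y.1) (h2 : x.2 = y.2) : x = y :=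
  Prod.ext h1 h2

theorem add0_1 (x y : CD R 0) : (x + y).1 = x.1 + y.1 := rfl
theorem add0_2 (x y : CD R 0) : (x + y).2 = x.2 + y.2 := rfl
theorem smul0_1 (c : R) (x : CD R 0) : (c • x).1 = c * x.1 := rfl
theorem smul0_2 (c : R) (x : CD R 0) : (c • x).2 = c * x.2 := rfl
theorem neg0_1 (x : CD R 0) : (-x).1 = -x.1 := rfl
theorem neg0_2 (x : CD R 0) : (-x).2 = -x.2 := rfl
theorem zero0_1 : (0 : CD R 0).1 = 0 := rfl
theorem zero0_2 : (0 : CD R 0).2 = 0 := rfl
theorem addS_1 {k : ℕ} (x y : CD R (k + 1)) : (x + y).1 = x.1 + y.1 := rfl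
theorem addS_2 {k : ℕ} (x y : CD R (k + 1)) : (x + y).2 = x.2 + y.2 := rfl
theorem smulS_1 {k : ℕ} (c : R) (x : CD R (k + 1)) : (c • x).1 = c • x.1 := rfl
theorem smulS_2 {k : ℕ} (c : R) (x : CD R (k + 1)) : (c • x).2 = c • x.2 := rfl
theorem negS_1 {k : ℕ} (x : CD R (k + 1)) : (-x).1 = -x.1 := rfl
theorem negS_2 {k : ℕ} (x : CD R (k + 1)) : (-x).2 = -x.2 := rfl
theorem zeroS_1 {k : ℕ} : (0 : CD R (k + 1)).1 = 0 := rfl
theorem zeroS_2 {k : ℕ} : (0 : CD R (k + 1)).2 = 0 := rfl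
theorem conj0_1 (x : CD R 0) : (conj 0 x).1 = x.1 + x.2 := rfl
theorem conj0_2 (x : CD R 0) : (conj 0 x).2 = -x.2 := rfl
theorem conjS_1 {k : ℕ} (x : CD R (k + 1)) : (conj (k + 1) x).1 = conj k x.1 := rfl
theorem conjS_2 {k : ℕ} (x : CD R (k + 1)) : (conj (k + 1) x).2 = -x.2 := rfl
theorem mul0_1 (α : R) (γ : ℕ → R) (x y : CD R 0) :
    (mul α γ 0 x y).1 = x.1 * y.1 + α * (x.2 * y.2) := rfl
theorem mul0_2 (α : R) (γ : ℕ → R) (x y : CD R 0) :
    (mul α γ 0 x y).2 = x.1 * y.2 + x.2 * y.1 + x.2 * y.2 := rfl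
theorem mulS_1 (α : R) (γ : ℕ → R) {k : ℕ} (x y : CD R (k + 1)) :
    (mul α γ (k + 1) x y).1 =
      mul α γ k x.1 y.1 + γ (k + 2) • mul α γ k (conj k y.2) x.2 := rfl
theorem mulS_2 (α : R) (γ : ℕ → R) {k : ℕ} (x y : CD R (k + 1)) :
    (mul α γ (k + 1) x y).2 = mul α γ k y.2 x.1 + mul α γ k x.2 (conj k y.1) := rfl

theorem conj_add (k : ℕ) (x y : CD R k) : conj k (x + y) = conj k x + conj k y := by
  induction k with
  | zero => apply ext0 <;> simp only [conj0_1, conj0_2, add0_1, add0_2] <;> ring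
  | succ k ih => apply extS <;> simp only [conjS_1, conjS_2, addS_1, addS_2, ih, neg_add]

theorem conj_smul (k : ℕ) (c : R) (x : CD R k) : conj k (c • x) = c • conj k x := by
  induction k with
  | zero => apply ext0 <;> simp only [conj0_1, conj0_2, smul0_1, smul0_2] <;> ring
  | succ k ih => apply extS <;> simp only [conjS_1, conjS_2, smulS_1, smulS_2, ih, smul_neg]

theorem mul_add' (α : R) (γ : ℕ → R) (k : ℕ) : ∀ x y z : CD R k,
    mul α γ k x (y + z) = mul α γ k x y + mul α γ k x z ∧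
    mul α γ k (y + z) x = mul α γ k y x + mul α γ k z x := by
  induction k with
  | zero =>
    intro x y z
    constructor <;> apply ext0 <;> simp only [mul0_1, mul0_2, add0_1, add0_2] <;> ring
  | succ k ih =>
    intro x y z
    constructor <;> apply extS <;>
      simp only [mulS_1, mulS_2, addS_1, addS_2, conj_add, (ih _ _ _).1, (ih _ _ _).2,
        smul_add] <;> abel

theorem mul_smul' (α : R) (γ : ℕ → R) (k : ℕ) (c : R) : ∀ x y : CD R k,
    mul α γ k x (c • y) = c • mul α γ k x y ∧ mul α γ k (c • x) y = c • mul α γ k x y := by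
  induction k with
  | zero =>
    intro x y
    constructor <;> apply ext0 <;> simp only [mul0_1, mul0_2, smul0_1, smul0_2] <;> ring
  | succ k ih =>
    intro x y
    constructor <;> apply extS <;>
      simp only [mulS_1, mulS_2, smulS_1, smulS_2, conj_smul, (ih _ _).1, (ih _ _).2,
        smul_add, smul_comm c]

theorem mul_zero' (α : R) (γ : ℕ → R) (k : ℕ) (x : CD R k) : mul α γ k x 0 = 0 := by
  simpa using (mul_smul' α γ k 0 x 0).1

theorem zero_mul' (α : R) (γ : ℕ → R) (k : ℕ) (x : CD R k) : mul α γ k 0 x = 0 := by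
  simpa using (mul_smul' α γ k 0 0 x).2

end Basic

/-- The Cayley–Dickson algebra `A_{k+1}` with parameters `α, γ_2, …, γ_{k+1}`. -/
def CDAlg {R : Type} (_α : R) (_γ : ℕ → R) (k : ℕ) : Type := CD R k

section Inst

variable {R : Type} [CommRing R] (α : R) (γ : ℕ → R) (k : ℕ)

instance : NonUnitalNonAssocRing (CDAlg α γ k) :=
  { addCommGroup (R := R) k with
    mul := mul α γ k
    left_distrib := fun x y z => (mul_add' α γ k x y z).1
    right_distrib := fun x y z => (mul_add' α γ k z x y).2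
    zero_mul := zero_mul' α γ k
    mul_zero := mul_zero' α γ k }

instance : Module R (CDAlg α γ k) := module (R := R) k

instance : IsScalarTower R (CDAlg α γ k) (CDAlg α γ k) :=
  ⟨fun c x y => (mul_smul' α γ k c x y).2⟩

instance : SMulCommClass R (CDAlg α γ k) (CDAlg α γ k) :=
  ⟨fun c x y => (mul_smul' α γ k c x y).1.symm⟩

end Inst

section Defs

variable (F : Type) [Field F] (A : Type) [NonUnitalNonAssocRing A] [Module F A]
  [IsScalarTower F A A] [SMulCommClass F A A]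

/-- `A² ≠ 0` and the only two-sided ideals of `A` are `0` and `A`. -/
def IsSimple : Prop :=
  (∃ x y : A, x * y ≠ 0) ∧ ∀ I : Submodule F A,
    (∀ x ∈ I, ∀ y : A, x * y ∈ I ∧ y * x ∈ I) → I = ⊥ ∨ I = ⊤

/-- The nonassociative polynomial `f` vanishes identically on `A`. -/
def IsIdentity (f : FreeNonUnitalNonAssocAlgebra F ℕ) : Prop :=
  ∀ v : ℕ → A, FreeNonUnitalNonAssocAlgebra.lift F v f = 0

/-- Every finitely generated subalgebra is nilpotent: for some `m ≥ 1` all products of `m` of its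
elements vanish, in every bracketing. -/
def LocallyNilpotent : Prop :=
  ∀ S : Finset A, ∃ m : ℕ, 1 ≤ m ∧ ∀ w : FreeMagma ℕ, w.length = m → ∀ v : ℕ → A,
    (∀ i, v i ∈ NonUnitalAlgebra.adjoin F (S : Set A)) → FreeMagma.lift v w = 0

end Defs

section Simple

variable {R : Type} [CommRing R]

def one : (k : ℕ) → CD R k
  | 0 => (1, 0)
  | k + 1 => (one k, 0)

def tr : (k : ℕ) → CD R k → R
  | 0, x => 2 * x.1 + x.2
  | k + 1, x => tr k x.1

def pol (α : R) (γ : ℕ → R) : (k : ℕ) → CD R k → CD R k → R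
  | 0, x, y => 2 * x.1 * y.1 + x.1 * y.2 + x.2 * y.1 - 2 * α * x.2 * y.2
  | k + 1, x, y => pol α γ k x.1 y.1 - γ (k + 2) * pol α γ k x.2 y.2

def uu : (k : ℕ) → CD R k
  | 0 => (0, 1)
  | k + 1 => (uu k, 0)

def p0 (a b : R) : CD R 0 := (a, b)
def pS {k : ℕ} (a b : CD R k) : CD R (k + 1) := (a, b)

omit [CommRing R] in
theorem p0_1 (a b : R) : (p0 a b).1 = a := rfl
omit [CommRing R] in
theorem p0_2 (a b : R) : (p0 a b).2 = b := rfl
omit [CommRing R] in
theorem pS_1 {k : ℕ} (a b : CD R k) : (pS a b).1 = a := rfl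
omit [CommRing R] in
theorem pS_2 {k : ℕ} (a b : CD R k) : (pS a b).2 = b := rfl
theorem one0_1 : (one 0 : CD R 0).1 = 1 := rfl
theorem one0_2 : (one 0 : CD R 0).2 = 0 := rfl
theorem oneS_1 {k : ℕ} : (one (k + 1) : CD R (k + 1)).1 = one k := rfl
theorem oneS_2 {k : ℕ} : (one (k + 1) : CD R (k + 1)).2 = 0 := rfl
theorem tr0 (x : CD R 0) : tr 0 x = 2 * x.1 + x.2 := rfl
theorem trS {k : ℕ} (x : CD R (k + 1)) : tr (k + 1) x = tr k x.1 := rfl
theorem pol0 (α : R) (γ : ℕ → R) (x y : CD R 0) :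
    pol α γ 0 x y = 2 * x.1 * y.1 + x.1 * y.2 + x.2 * y.1 - 2 * α * x.2 * y.2 := rfl
theorem polS (α : R) (γ : ℕ → R) {k : ℕ} (x y : CD R (k + 1)) :
    pol α γ (k + 1) x y = pol α γ k x.1 y.1 - γ (k + 2) * pol α γ k x.2 y.2 := rfl

theorem conj_zero (k : ℕ) : conj k (0 : CD R k) = 0 := by
  simpa using conj_smul k (0 : R) (0 : CD R k)

theorem conj_neg (k : ℕ) (x : CD R k) : conj k (-x) = -conj k x := by
  simpa using conj_smul k (-1 : R) x

theorem mul_neg' (α : R) (γ : ℕ → R) (k : ℕ) (x y : CD R k) :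
    mul α γ k x (-y) = -mul α γ k x y := by
  simpa using (mul_smul' α γ k (-1) x y).1

theorem neg_mul' (α : R) (γ : ℕ → R) (k : ℕ) (x y : CD R k) :
    mul α γ k (-x) y = -mul α γ k x y := by
  simpa using (mul_smul' α γ k (-1) x y).2

theorem conj_conj (k : ℕ) (x : CD R k) : conj k (conj k x) = x := by
  induction k with
  | zero => apply ext0 <;> simp only [conj0_1, conj0_2] <;> ring
  | succ k ih => apply extS <;> simp only [conjS_1, conjS_2, ih, neg_neg]

theorem conj_eq (k : ℕ) (x : CD R k) : conj k x = tr k x • one k + -x := by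
  induction k with
  | zero =>
    apply ext0 <;> simp only [conj0_1, conj0_2, add0_1, add0_2, smul0_1, smul0_2, neg0_1, neg0_2,
      tr0, one0_1, one0_2] <;> ring
  | succ k ih =>
    apply extS <;> simp only [conjS_1, conjS_2, addS_1, addS_2, smulS_1, smulS_2, negS_1, negS_2,
      trS, oneS_1, oneS_2, ih, smul_zero, zero_add]

theorem conj_one (k : ℕ) : conj k (one k : CD R k) = one k := by
  induction k with
  | zero => apply ext0 <;> simp [conj0_1, conj0_2, one0_1, one0_2]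
  | succ k ih => apply extS <;> simp [conjS_1, conjS_2, oneS_1, oneS_2, ih]

theorem mul_one' (α : R) (γ : ℕ → R) (k : ℕ) : ∀ x : CD R k,
    mul α γ k x (one k) = x ∧ mul α γ k (one k) x = x := by
  induction k with
  | zero =>
    intro x
    constructor <;> apply ext0 <;> simp [mul0_1, mul0_2, one0_1, one0_2]
  | succ k ih =>
    intro x
    constructor <;> apply extS <;>
      simp [mulS_1, mulS_2, oneS_1, oneS_2, (ih _).1, (ih _).2, conj_zero, conj_one, mul_zero',
        zero_mul']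

theorem pol_eq (α : R) (γ : ℕ → R) (k : ℕ) : ∀ x y : CD R k,
    mul α γ k x (conj k y) + mul α γ k y (conj k x) = pol α γ k x y • one k ∧
    mul α γ k (conj k x) y + mul α γ k (conj k y) x = pol α γ k x y • one k := by
  induction k with
  | zero =>
    intro x y
    constructor <;> apply ext0 <;>
      simp only [mul0_1, mul0_2, add0_1, add0_2, smul0_1, smul0_2, conj0_1, conj0_2, pol0,
        one0_1, one0_2] <;> ring
  | succ k ih =>
    intro x y
    have h1 := (ih x.1 y.1).1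
    have h2 := (ih x.2 y.2).2
    have key : mul α γ (k + 1) x (conj _ y) + mul α γ (k + 1) y (conj _ x)
        = pol α γ (k + 1) x y • one (k + 1) := by
      apply extS
      · rw [smulS_1, oneS_1]
        simp only [mulS_1, addS_1, conjS_1, conjS_2, polS, conj_neg, neg_mul',
          sub_smul, mul_smul, ← h1, ← h2, smul_add, smul_neg]
        abel
      · simp only [mulS_2, addS_2, smulS_2, conjS_1, conjS_2, oneS_2, conj_conj, neg_mul',
          smul_zero]
        abel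
    refine ⟨key, ?_⟩
    rw [← key]
    simp only [conj_eq (k + 1), (mul_add' _ _ _ _ _ _).1, (mul_add' _ _ _ _ _ _).2,
      (mul_smul' _ _ _ _ _ _).1, (mul_smul' _ _ _ _ _ _).2, (mul_one' _ _ _ _).1,
      (mul_one' _ _ _ _).2, mul_neg', neg_mul']
    abel

theorem pol_zero (α : R) (γ : ℕ → R) (k : ℕ) (x : CD R k) : pol α γ k x 0 = 0 := by
  induction k with
  | zero => simp [pol0, zero0_1, zero0_2]
  | succ k ih => simp [polS, zeroS_1, zeroS_2, ih]

theorem tr_zero (k : ℕ) : tr k (0 : CD R k) = 0 := by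
  induction k with
  | zero => simp [tr0, zero0_1, zero0_2]
  | succ k ih => simpa [trS, zeroS_1] using ih

variable {F : Type} [Field F]

theorem pol_nondeg (α : F) (γ : ℕ → F) (hα : 1 + 4 * α ≠ 0) (k : ℕ)
    (hγ : ∀ i, 2 ≤ i → i ≤ k + 1 → γ i ≠ 0) (x : CD F k) (hx : ∀ y, pol α γ k x y = 0) :
    x = 0 := by
  induction k with
  | zero =>
    have h1 := hx (p0 1 0)
    have h2 := hx (p0 0 1)
    simp only [pol0, p0_1, p0_2] at h1 h2
    have e2 : (1 + 4 * α) * x.2 = 0 := by linear_combination h1 - 2 * h2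
    have e2' : x.2 = 0 := (mul_eq_zero.mp e2).resolve_left hα
    apply ext0
    · rw [zero0_1]; linear_combination h2 + 2 * α * e2'
    · exact e2'
  | succ k ih =>
    have hγ' : ∀ i, 2 ≤ i → i ≤ k + 1 → γ i ≠ 0 := fun i h1 h2 => hγ i h1 (by omega)
    apply extS
    · apply ih hγ'
      intro y
      simpa [polS, pol_zero, pS_1, pS_2] using hx (pS y 0)
    · apply ih hγ'
      intro y
      simpa [polS, pol_zero, pS_1, pS_2, hγ (k + 2) (by omega) le_rfl] using hx (pS 0 y)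

theorem conj_uu (k : ℕ) : conj k (uu k : CD F k) ≠ uu k := by
  induction k with
  | zero =>
    intro h
    have : (0 : F) + 1 = 0 := congrArg Prod.fst h
    simp at this
  | succ k ih => exact fun h => ih (congrArg Prod.fst h)

theorem one_ne (k : ℕ) : (one k : CD F k) ≠ 0 := by
  induction k with
  | zero => exact fun h => one_ne_zero (congrArg Prod.fst h)
  | succ k ih => exact fun h => ih (congrArg Prod.fst h)

theorem simple (α : F) (γ : ℕ → F) (hα : 1 + 4 * α ≠ 0) (k : ℕ)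
    (hγ : ∀ i, 2 ≤ i → i ≤ k + 2 → γ i ≠ 0) : IsSimple F (CDAlg α γ (k + 1)) := by
  refine ⟨⟨one (k + 1), one (k + 1), fun h => one_ne (F := F) (k + 1) ?_⟩, fun I hI => ?_⟩
  · rw [← (mul_one' α γ (k + 1) (one _)).1]; exact h
  let J : Submodule F (CD F (k + 1)) := I
  have hJ : ∀ x ∈ J, ∀ y, mul α γ (k + 1) x y ∈ J ∧ mul α γ (k + 1) y x ∈ J := hI
  have key : ∀ x ∈ J, ∀ y, tr _ x • y + -(pol α γ (k + 1) x y • one (k + 1)) ∈ J := by
    intro x hx y
    have e := (pol_eq α γ (k + 1) x y).1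
    rw [conj_eq _ x, (mul_add' _ _ _ _ _ _).1, (mul_smul' _ _ _ _ _ _).1, (mul_one' _ _ _ _).1,
      mul_neg'] at e
    rw [← e]
    have := J.sub_mem (hJ x hx y).2 (hJ x hx (conj _ y)).1
    convert this using 1
    abel
  have top : ∀ x ∈ J, x ≠ 0 → tr _ x = 0 → I = ⊤ := by
    intro x hx hx0 ht
    obtain ⟨y, hy⟩ : ∃ y, pol α γ (k + 1) x y ≠ 0 := by
      by_contra hc
      push Not at hc
      exact hx0 (pol_nondeg α γ hα (k + 1) hγ x hc)
    have h1 := key x hx y
    rw [ht, zero_smul, zero_add] at h1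
    have h2 : one (k + 1) ∈ J := by
      have := J.smul_mem (-(pol α γ (k + 1) x y)⁻¹) h1
      rwa [neg_smul_neg, smul_smul, inv_mul_cancel₀ hy, one_smul] at this
    rw [eq_top_iff]
    intro z _
    have := (hJ _ h2 z).1
    rwa [(mul_one' α γ (k + 1) z).2] at this
  by_cases hb : I = ⊥
  · exact Or.inl hb
  right
  obtain ⟨x, hx, hx0⟩ := Submodule.exists_mem_ne_zero_of_ne_bot hb
  by_cases ht : tr (k + 1) x = 0
  · exact top x hx hx0 ht
  have h1 := key x hx (pS 0 (one k))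
  have h2 := J.add_mem (hJ _ h1 (pS (uu k) 0)).1 (J.neg_mem (hJ _ h1 (pS (uu k) 0)).2)
  have e : ∀ (t c : F), mul α γ (k + 1) (t • (pS 0 (one k)) + -(c • one (k + 1))) (pS (uu k) 0) +
      -mul α γ (k + 1) (pS (uu k) 0) (t • (pS 0 (one k)) + -(c • one (k + 1))) =
      pS 0 (t • (conj k (uu k) - uu k)) := by
    intro t c
    simp only [(mul_add' _ _ _ _ _ _).1, (mul_add' _ _ _ _ _ _).2,
      (mul_smul' _ _ _ _ _ _).1, (mul_smul' _ _ _ _ _ _).2, (mul_one' _ _ _ _).1,
      (mul_one' _ _ _ _).2, mul_neg', neg_mul']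
    apply extS
    · simp [addS_1, negS_1, smulS_1, mulS_1, mul_zero', zero_mul', conj_zero, pS_1, pS_2]
    · simp [addS_2, negS_2, smulS_2, mulS_2, mul_zero', zero_mul', (mul_one' _ _ _ _).2,
        sub_eq_add_neg, pS_1, pS_2, (mul_one' _ _ _ _).1]
  rw [e] at h2
  refine top _ h2 (fun h => ?_) (tr_zero k)
  have h3 : tr (k + 1) x • ((conj k (uu k) : CD F k) - uu k) = 0 := congrArg Prod.snd h
  exact conj_uu k (sub_eq_zero.mp ((smul_eq_zero.mp h3).resolve_left ht))

end Simple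

section Transfer

variable {R S : Type} [CommRing R] [CommRing S]

def cmap (ψ : R →+* S) : (k : ℕ) → CD R k → CD S k
  | 0, x => (ψ x.1, ψ x.2)
  | k + 1, x => (cmap ψ k x.1, cmap ψ k x.2)

theorem cmap0_1 (ψ : R →+* S) (x : CD R 0) : (cmap ψ 0 x).1 = ψ x.1 := rfl
theorem cmap0_2 (ψ : R →+* S) (x : CD R 0) : (cmap ψ 0 x).2 = ψ x.2 := rfl
theorem cmapS_1 (ψ : R →+* S) {k : ℕ} (x : CD R (k + 1)) :
    (cmap ψ (k + 1) x).1 = cmap ψ k x.1 := rfl
theorem cmapS_2 (ψ : R →+* S) {k : ℕ} (x : CD R (k + 1)) :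
    (cmap ψ (k + 1) x).2 = cmap ψ k x.2 := rfl

theorem cmap_add (ψ : R →+* S) (k : ℕ) (x y : CD R k) :
    cmap ψ k (x + y) = cmap ψ k x + cmap ψ k y := by
  induction k with
  | zero => apply ext0 <;> simp only [cmap0_1, cmap0_2, add0_1, add0_2, map_add]
  | succ k ih => apply extS <;> simp only [cmapS_1, cmapS_2, addS_1, addS_2, ih]

theorem cmap_smul (ψ : R →+* S) (k : ℕ) (c : R) (x : CD R k) :
    cmap ψ k (c • x) = ψ c • cmap ψ k x := by
  induction k with
  | zero => apply ext0 <;> simp only [cmap0_1, cmap0_2, smul0_1, smul0_2, map_mul]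
  | succ k ih => apply extS <;> simp only [cmapS_1, cmapS_2, smulS_1, smulS_2, ih]

theorem cmap_zero (ψ : R →+* S) (k : ℕ) : cmap ψ k 0 = 0 := by
  simpa using cmap_smul ψ k 0 0

theorem cmap_neg (ψ : R →+* S) (k : ℕ) (x : CD R k) : cmap ψ k (-x) = -cmap ψ k x := by
  simpa using cmap_smul ψ k (-1) x

theorem cmap_conj (ψ : R →+* S) (k : ℕ) (x : CD R k) :
    cmap ψ k (conj k x) = conj k (cmap ψ k x) := by
  induction k with
  | zero => apply ext0 <;> simp only [cmap0_1, cmap0_2, conj0_1, conj0_2, map_add, map_neg]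
  | succ k ih => apply extS <;> simp only [cmapS_1, cmapS_2, conjS_1, conjS_2, ih, cmap_neg]

theorem cmap_mul (ψ : R →+* S) {α : R} {γ : ℕ → R} {α' : S} {γ' : ℕ → S} (hα : ψ α = α')
    (hγ : ∀ i, ψ (γ i) = γ' i) (k : ℕ) : ∀ x y : CD R k,
    cmap ψ k (mul α γ k x y) = mul α' γ' k (cmap ψ k x) (cmap ψ k y) := by
  induction k with
  | zero =>
    intro x y
    apply ext0 <;> simp only [cmap0_1, cmap0_2, mul0_1, mul0_2, map_add, map_mul, hα]
  | succ k ih =>
    intro x y
    apply extS <;>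
      simp only [cmapS_1, cmapS_2, mulS_1, mulS_2, cmap_add, cmap_smul, ih, cmap_conj, hγ]

theorem cmap_surj (ψ : R →+* S) (h : Function.Surjective ψ) (k : ℕ) :
    Function.Surjective (cmap ψ k) := by
  induction k with
  | zero =>
    intro y
    obtain ⟨a, ha⟩ := h y.1
    obtain ⟨b, hb⟩ := h y.2
    exact ⟨p0 a b, ext0 ha hb⟩
  | succ k ih =>
    intro y
    obtain ⟨a, ha⟩ := ih y.1
    obtain ⟨b, hb⟩ := ih y.2
    exact ⟨pS a b, extS ha hb⟩

theorem generic_zero {F σ : Type} [Field F] [Infinite F] (k : ℕ) (x : CD (MvPolynomial σ F) k)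
    (h : ∀ p : σ → F, cmap (MvPolynomial.eval p) k x = 0) : x = 0 := by
  induction k with
  | zero =>
    apply ext0
    · exact MvPolynomial.funext fun p => (congrArg Prod.fst (h p)).trans (map_zero _).symm
    · exact MvPolynomial.funext fun p => (congrArg Prod.snd (h p)).trans (map_zero _).symm
  | succ k ih =>
    exact extS (ih _ fun p => congrArg Prod.fst (h p)) (ih _ fun p => congrArg Prod.snd (h p))

def ev (α : R) (γ : ℕ → R) (k : ℕ) (v : ℕ → CD R k) : FreeMagma ℕ → CD R k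
  | FreeMagma.of i => v i
  | FreeMagma.mul a b => mul α γ k (ev α γ k v a) (ev α γ k v b)

theorem ev_mul (α : R) (γ : ℕ → R) (k : ℕ) (v : ℕ → CD R k) (a b : FreeMagma ℕ) :
    ev α γ k v (a * b) = mul α γ k (ev α γ k v a) (ev α γ k v b) := rfl

theorem cmap_ev (ψ : R →+* S) {α : R} {γ : ℕ → R} {α' : S} {γ' : ℕ → S} (hα : ψ α = α')
    (hγ : ∀ i, ψ (γ i) = γ' i) (k : ℕ) (v : ℕ → CD R k) (w : FreeMagma ℕ) :
    cmap ψ k (ev α γ k v w) = ev α' γ' k (fun i => cmap ψ k (v i)) w := by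
  induction w with
  | ih1 i => rfl
  | ih2 a b ha hb => rw [ev_mul, ev_mul, cmap_mul ψ hα hγ, ha, hb]

variable {F : Type} [Field F]

/-- evaluation of a polynomial with coefficients pushed along `φ` -/
noncomputable def evP (φ : F →+* R) (α : F) (γ : ℕ → F) (k : ℕ) (v : ℕ → CD R k)
    (f : FreeMagma ℕ →₀ F) : CD R k :=
  ∑ w ∈ f.support, φ (f w) • ev (φ α) (fun i => φ (γ i)) k v w

theorem cmap_evP (φ : F →+* R) (ψ : R →+* S) (χ : F →+* S) (h : ∀ c, ψ (φ c) = χ c) (α : F)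
    (γ : ℕ → F) (k : ℕ) (v : ℕ → CD R k) (f : FreeMagma ℕ →₀ F) :
    cmap ψ k (evP φ α γ k v f) = evP χ α γ k (fun i => cmap ψ k (v i)) f := by
  let T : CD R k →+ CD S k := ⟨⟨cmap ψ k, cmap_zero ψ k⟩, cmap_add ψ k⟩
  change T _ = _
  rw [evP, map_sum]
  refine Finset.sum_congr rfl fun w _ => ?_
  change cmap ψ k _ = _
  rw [cmap_smul, h, cmap_ev ψ (h α) (fun i => h (γ i))]

theorem transfer [Infinite F] {K : Type} [CommRing K] [Algebra F K] (α : F) (γ : ℕ → F) (k : ℕ)
    (f : FreeMagma ℕ →₀ F) (h : ∀ v, evP (RingHom.id F) α γ k v f = 0) (v : ℕ → CD K k) :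
    evP (algebraMap F K) α γ k v f = 0 := by
  let ψ : MvPolynomial K F →+* K := (MvPolynomial.aeval (R := F) (id : K → K)).toRingHom
  have hψ : Function.Surjective ψ := fun c => ⟨MvPolynomial.X c, by simp [ψ]⟩
  choose V hV using fun i => cmap_surj ψ hψ k (v i)
  have h0 : evP (MvPolynomial.C : F →+* MvPolynomial K F) α γ k V f = 0 := by
    apply generic_zero
    intro p
    rw [cmap_evP _ _ (RingHom.id F) (by simp), h]
  have := cmap_evP (MvPolynomial.C : F →+* MvPolynomial K F) ψ (algebraMap F K)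
    (by simp [ψ]) α γ k V f
  rw [h0, cmap_zero, funext hV] at this
  exact this.symm

theorem lift_eq_ev (α : R) (γ : ℕ → R) (k : ℕ) (v : ℕ → CDAlg α γ k) (w : FreeMagma ℕ) :
    FreeMagma.lift v w = ev α γ k v w := by
  induction w with
  | ih1 i => rfl
  | ih2 a b ha hb => exact (congrArg₂ (fun s t : CDAlg α γ k => s * t) ha hb).trans rfl

theorem lift_eq_sum {A : Type} [NonUnitalNonAssocRing A] [Module F A] [IsScalarTower F A A]
    [SMulCommClass F A A] (v : ℕ → A) (f : FreeNonUnitalNonAssocAlgebra F ℕ) :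
    FreeNonUnitalNonAssocAlgebra.lift F v f =
      ∑ w ∈ f.coeff.support, f.coeff w • FreeMagma.lift v w := rfl

end Transfer

section Pair

variable {K : Type} [Field K]

def Good (α : K) (γ : ℕ → K) (k : ℕ) (x y : CD K k) : Prop :=
  mul α γ k x x = 0 ∧ mul α γ k y y = 0 ∧ mul α γ k x y = y ∧ mul α γ k y x = -y ∧ y ≠ 0

theorem good_succ {α : K} {γ : ℕ → K} {k : ℕ} {x y : CD K k} (h : Good α γ k x y) :
    Good α γ (k + 1) (pS x 0) (pS y 0) := by
  obtain ⟨h1, h2, h3, h4, h5⟩ := h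
  refine ⟨?_, ?_, ?_, ?_, fun h => h5 (congrArg Prod.fst h)⟩ <;> apply extS <;>
    simp [mulS_1, mulS_2, pS_1, pS_2, mul_zero', zero_mul', h1, h2, h3, h4, zeroS_1, zeroS_2,
      negS_1, negS_2]

def X3 (r c4 : K) : CD K 3 :=
  pS (pS (pS 0 (c4 • p0 (r - 1) 1)) 0) (pS (pS 0 (p0 r (-1))) 0)

def Y3 (r c2 c4 : K) : CD K 3 :=
  pS (pS 0 (pS ((c2 * c4) • p0 (r - 1) 1) (c4 • p0 (r - 1) 1)))
    (pS 0 (pS ((-c2) • p0 (r - 1) 1) (p0 (r - 1) 1)))

theorem good3 (α : K) (γ : ℕ → K) (r c2 c4 : K) (hr : α = r ^ 2 - r) (h2 : γ 2 = c2 ^ 2)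
    (h4 : γ 4 = c4 ^ 2) :
    mul α γ 3 (X3 r c4) (X3 r c4) = 0 ∧ mul α γ 3 (Y3 r c2 c4) (Y3 r c2 c4) = 0 ∧
    mul α γ 3 (X3 r c4) (Y3 r c2 c4) = ((2 * r - 1) * c2 * c4) • Y3 r c2 c4 ∧
    mul α γ 3 (Y3 r c2 c4) (X3 r c4) = -(((2 * r - 1) * c2 * c4) • Y3 r c2 c4) := by
  refine ⟨?_, ?_, ?_, ?_⟩ <;> apply extS <;> apply extS <;> apply extS <;> apply ext0 <;>
    simp only [X3, Y3, mulS_1, mulS_2, mul0_1, mul0_2, pS_1, pS_2, p0_1, p0_2, addS_1, addS_2,
      add0_1, add0_2, smulS_1, smulS_2, smul0_1, smul0_2, negS_1, negS_2, neg0_1, neg0_2,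
      zeroS_1, zeroS_2, zero0_1, zero0_2, conjS_1, conjS_2, conj0_1, conj0_2, hr, h2, h4,
      Nat.reduceAdd, zero_add] <;> ring

theorem exists_good [IsAlgClosed K] (α : K) (γ : ℕ → K) (hα : 1 + 4 * α ≠ 0) (h2 : γ 2 ≠ 0)
    (h4 : γ 4 ≠ 0) (k : ℕ) (hk : 3 ≤ k) : ∃ x y, Good α γ k x y := by
  induction k, hk using Nat.le_induction with
  | base =>
    obtain ⟨r, hr⟩ := IsAlgClosed.exists_root
      (Polynomial.X ^ 2 - Polynomial.X - Polynomial.C α : Polynomial K)
      (by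
        have : (Polynomial.X ^ 2 - Polynomial.X - Polynomial.C α : Polynomial K).degree = 2 := by
          compute_degree!
        rw [this]; decide)
    have hr' : α = r ^ 2 - r := by
      simp only [Polynomial.IsRoot, Polynomial.eval_sub, Polynomial.eval_pow, Polynomial.eval_X,
        Polynomial.eval_C] at hr
      linear_combination -hr
    obtain ⟨c2, hc2⟩ := IsAlgClosed.exists_pow_nat_eq (γ 2) (n := 2) (by norm_num)
    obtain ⟨c4, hc4⟩ := IsAlgClosed.exists_pow_nat_eq (γ 4) (n := 2) (by norm_num)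
    obtain ⟨g1, g2, g3, g4⟩ := good3 α γ r c2 c4 hr' hc2.symm hc4.symm
    have hd : (2 * r - 1) * c2 * c4 ≠ 0 := by
      refine mul_ne_zero (mul_ne_zero (fun h => hα ?_) (fun h => h2 ?_)) (fun h => h4 ?_)
      · rw [hr']; linear_combination (2 * r - 1) * h
      · rw [← hc2, h]; ring
      · rw [← hc4, h]; ring
    refine ⟨((2 * r - 1) * c2 * c4)⁻¹ • X3 r c4, Y3 r c2 c4, ?_, g2, ?_, ?_, fun h => ?_⟩
    · rw [(mul_smul' _ _ _ _ _ _).1, (mul_smul' _ _ _ _ _ _).2, g1, smul_zero, smul_zero]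
    · rw [(mul_smul' _ _ _ _ _ _).2, g3, smul_smul, inv_mul_cancel₀ hd, one_smul]
    · rw [(mul_smul' _ _ _ _ _ _).1, g4, smul_neg, smul_smul, inv_mul_cancel₀ hd, one_smul]
    · have : (1 : K) = 0 := congrArg (fun z : CD K 3 => z.2.2.2.2) h
      exact one_ne_zero this
  | succ k _ ih =>
    obtain ⟨x, y, h⟩ := ih
    exact ⟨_, _, good_succ h⟩

end Pair

section Lie

open H48.BAlg

variable (F : Type) [Field F]

def lm : (F × F) →ₗ[F] (F × F) →ₗ[F] (F × F) :=
  LinearMap.mk₂ F (fun a b => (0, a.1 * b.2 - a.2 * b.1))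
    (by intro a a' b; ext <;> simp; ring)
    (by intro c a b; ext <;> simp; ring)
    (by intro a b b'; ext <;> simp; ring)
    (by intro c a b; ext <;> simp; ring)

abbrev L2 : Type := Alg (lm F)

variable {F}

def f1 (a : L2 F) : F := ((mk (lm F)).symm a).1
def f2 (a : L2 F) : F := ((mk (lm F)).symm a).2

theorem f1_mul (a b : L2 F) : f1 (a * b) = 0 := rfl
theorem f2_mul (a b : L2 F) : f2 (a * b) = f1 a * f2 b - f2 a * f1 b := rfl

theorem L2_ext {a b : L2 F} (h1 : f1 a = f1 b) (h2 : f2 a = f2 b) : a = b :=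
  (mk (lm F)).symm.injective (Prod.ext h1 h2)

theorem L2_identity [Infinite F] (α : F) (γ : ℕ → F) (hα : 1 + 4 * α ≠ 0) (h2 : γ 2 ≠ 0)
    (h4 : γ 4 ≠ 0) (k : ℕ) (hk : 3 ≤ k) (f : FreeNonUnitalNonAssocAlgebra F ℕ)
    (hf : IsIdentity F (CDAlg α γ k) f) : IsIdentity F (L2 F) f := by
  intro v
  let K := AlgebraicClosure F
  let φ := algebraMap F K
  obtain ⟨x, y, g1, g2, g3, g4, g5⟩ := exists_good (φ α) (fun i => φ (γ i))
    (by
      intro h
      apply hα
      apply φ.injective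
      rw [map_add, map_mul, map_one, map_ofNat, h, map_zero])
    (by simpa using h2) (by simpa using h4) k hk
  let ι : L2 F → CD K k := fun a => φ (f1 a) • x + φ (f2 a) • y
  have ιadd : ∀ a b, ι (a + b) = ι a + ι b := by
    intro a b
    change φ (f1 a + f1 b) • x + φ (f2 a + f2 b) • y = _
    simp only [ι, map_add, add_smul]
    abel
  have ιsmul : ∀ (c : F) a, ι (c • a) = φ c • ι a := by
    intro c a
    change φ (c * f1 a) • x + φ (c * f2 a) • y = _
    simp only [ι, map_mul, mul_smul, smul_add]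
  have ιzero : ι 0 = 0 := by simpa using ιsmul 0 0
  have ιmul : ∀ a b, ι (a * b) = mul (φ α) (fun i => φ (γ i)) k (ι a) (ι b) := by
    intro a b
    simp only [ι, f1_mul, f2_mul, (mul_add' _ _ _ _ _ _).1, (mul_add' _ _ _ _ _ _).2,
      (mul_smul' _ _ _ _ _ _).1, (mul_smul' _ _ _ _ _ _).2, g1, g2, g3, g4, map_zero, map_sub,
      map_mul]
    module
  have ιinj : ∀ a, ι a = 0 → a = 0 := by
    intro a ha
    have h1 : mul (φ α) (fun i => φ (γ i)) k (ι a) y = 0 := by rw [ha, zero_mul']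
    simp only [ι, (mul_add' _ _ _ _ _ _).2, (mul_smul' _ _ _ _ _ _).2, g2, g3, smul_zero,
      add_zero] at h1
    have e1 := (smul_eq_zero.mp h1).resolve_right g5
    simp only [ι, e1, zero_smul, zero_add] at ha
    have e2 := (smul_eq_zero.mp ha).resolve_right g5
    exact L2_ext (φ.injective (e1.trans (map_zero φ).symm))
      (φ.injective (e2.trans (map_zero φ).symm))
  have ιev : ∀ w, ι (FreeMagma.lift v w) = ev (φ α) (fun i => φ (γ i)) k (fun i => ι (v i)) w := by
    intro w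
    induction w with
    | ih1 i => rfl
    | ih2 a b ha hb => rw [ev_mul, ← ha, ← hb, ← ιmul, map_mul]
  apply ιinj
  have key := transfer (K := K) α γ k f.coeff (fun u => by
    have := (lift_eq_sum (A := CDAlg α γ k) u f).symm.trans (hf u)
    simp only [lift_eq_ev α γ k u] at this
    exact this) (fun i => ι (v i))
  rw [← key, lift_eq_sum]
  let T : L2 F →+ CD K k := ⟨⟨ι, ιzero⟩, ιadd⟩
  change T _ = _
  rw [map_sum, evP]
  refine Finset.sum_congr rfl fun w _ => ?_
  change ι _ = _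
  rw [ιsmul, ιev]

def word : ℕ → FreeMagma ℕ
  | 0 => FreeMagma.of 1
  | m + 1 => FreeMagma.of 0 * word m

theorem word_length (m : ℕ) : (word m).length = m + 1 := by
  induction m with
  | zero => rfl
  | succ m ih =>
    change 1 + (word m).length = _
    omega

theorem L2_not_nil : ¬ LocallyNilpotent F (L2 F) := by
  classical
  intro h
  let x : L2 F := mk (lm F) (1, 0)
  let y : L2 F := mk (lm F) (0, 1)
  obtain ⟨m, hm, h⟩ := h {x, y}
  let v : ℕ → L2 F := fun i => if i = 0 then x else y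
  have hv : ∀ n, FreeMagma.lift v (word n) = y := by
    intro n
    induction n with
    | zero => rfl
    | succ n ih =>
      rw [word, map_mul, ih]
      apply L2_ext
      · rfl
      · change (1 : F) * 1 - 0 * 0 = 1
        ring
  have := h (word (m - 1)) (by rw [word_length]; omega) v (fun i => by
    apply NonUnitalAlgebra.subset_adjoin
    by_cases hi : i = 0 <;> simp [v, hi])
  rw [hv] at this
  have h1 : (1 : F) = 0 := congrArg f2 this
  exact one_ne_zero h1

end Lie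

/-- For every infinite field, every `n = k + 1 ≥ 4` and all admissible parameters, `A_n` is simple
and some anticommutative algebra satisfying all identities of `A_n` is not locally nilpotent. -/
theorem result (F : Type) [Field F] [Infinite F] (k : ℕ) (hk : 4 ≤ k + 1) (α : F) (γ : ℕ → F)
    (hα : 1 + 4 * α ≠ 0) (hγ : ∀ i, 2 ≤ i → i ≤ k + 1 → γ i ≠ 0) :
    IsSimple F (CDAlg α γ k) ∧
    ∃ (B : Type) (_ : NonUnitalNonAssocRing B) (_ : Module F B) (_ : IsScalarTower F B B)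
      (_ : SMulCommClass F B B),
      (∀ x : B, x * x = 0) ∧ (∀ x y : B, x * y = -(y * x)) ∧
      (∀ f, IsIdentity F (CDAlg α γ k) f → IsIdentity F B f) ∧ ¬ LocallyNilpotent F B := by
  refine ⟨?_, L2 F, inferInstance, inferInstance, inferInstance, inferInstance, fun x => ?_,
    fun x y => ?_, L2_identity α γ hα (hγ 2 le_rfl (by omega)) (hγ 4 (by omega) hk) k (by omega),
    L2_not_nil⟩
  · obtain ⟨j, rfl⟩ : ∃ j, k = j + 1 := ⟨k - 1, by omega⟩
    exact simple α γ hα j hγ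
  · apply L2_ext
    · rfl
    · change f1 x * f2 x - f2 x * f1 x = 0
      ring
  · apply L2_ext
    · change (0 : F) = -0
      ring
    · change f1 x * f2 y - f2 x * f1 y = -(f1 y * f2 x - f2 y * f1 x)
      ring

end Pool.Agent.Results.MP_68720f_al.NotAdmissible
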